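import Pool.Agent.Run7.h414.DP.Dec
import Pool.Agent.N794.CG.Quad

/-!
# The mean size of the torsion of the class groups of quadratic fields over random integers with determinantal digits

The digits of the random integer `v` are given by a determinantal random set `S` of positions (a determinantal point process
with an arbitrary Hermitian kernel): the digit number `i` is `y i` if `i ∈ S` and `x i ≠ y i` otherwise. Examples (their
existence is not used and not formalised): the edges of a uniform spanning tree of a graph with `k` edges; stationary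
determinantal processes with any symbol which is not almost everywhere `0` or almost everywhere `1` (for example the discrete
sine process with any density); independent digits; and all the events for such processes whose probability is at least
`1 / k ^ t`, for example a prescribed number of elements of `S`.

Definitions used (in `Pool.Agent.Run7.h414.DP.Law` and `Pool.Agent.Run7.h414.DP.Fam`): `DetLaw`, `GoodPos`, `DetDigits`.

Method: the characteristic function is `det (1 + D A)`; the inequality `|det N|² ≤ exp (tr N* N - k)` for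
`N = 1 + B D B*`, `A = B* B`, bounds it by `exp (- E)` with an energy `E` which is at least a constant times the number of
the places where the frequency is far from the rational numbers with small denominators. After this many small primes
split in `ℚ(√(j n))` for almost all members `n`, with a high power saving in the probability of the exceptions at each
scale, and the argument of Ellenberg and Venkatesh applies (starting files `Pool.Agent.H491R4.HM`, `Pool.Agent.R459.Tor`,
`Pool.Agent.N794.CG.Quad`).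

From Mathlib: `𝓞 K`, `ClassGroup`, `NumberField.discr`: the ring of integers, the class group and the discriminant.
-/

set_option autoImplicit false

namespace Pool.Agent.Results.MP_16912e_nt.DeterminantalFamilies

open Finset NumberField Filter
open Pool.Agent.Run7.h414.DP (DC DC_sum DC_nonneg DetDigits fam_dc dc_decays)

/-- `|Cl(K)[l]|`: the number of the ideal classes of `K` killed by `l`. -/
noncomputable def tors (K : Type) [Field K] [NumberField K] (l : ℕ) : ℕ := Nat.card {x : ClassGroup (𝓞 K) // x ^ l = 1}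

open Classical in
/-- Let `b ≥ 2`, `L`, `η > 0` and `r ≥ 1` be fixed. There is `δ > 0` such that for `κ ≠ 0`, `t`, `U` and `V` there are `B`, `k₀`
such that the following holds for all `k ≥ k₀`, all `p` which are dominated, up to the factor `k ^ t`, by the distribution
of an integer with `k` determinantal digits (`DetDigits b L η t k p`), all `c`, all integers `j ≠ 0` with `|j| ≤ k ^ U`, all
`l` with `1 ≤ l ≤ k ^ U`, and all `Y ≥ 1`.

Let `K_n = ℚ(√(j n))` be quadratic fields, real or imaginary, with discriminant of absolute value at most `Y`, for the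
integers `n` in a set `S` of integers of absolute value at most `b ^ (V k)`. Then the sum over `v < b ^ k`, with the weights
`p v`, of the power `|Cl(K_n)[l]| ^ r`, `n = c + κ v` (with `0` if `n` is not in `S`) is at most
`(k ^ B Y ^ (1 / 2) max (Y ^ (-1 / (2 l)), b ^ (- δ k))) ^ r`. For `r = 1` and a prime `l` this is the average of the
question, with the exponent `1 / 2 - 1 / (2 l)`, over the family. -/
theorem result (b L : ℕ) (hb : 2 ≤ b) (η : ℝ) (hη : 0 < η) (r : ℕ) (hr : 1 ≤ r) :
    ∃ δ : ℝ, 0 < δ ∧ ∀ κ : ℤ, κ ≠ 0 → ∀ t U V : ℕ, ∃ B k₀ : ℕ, ∀ k : ℕ, k₀ ≤ k → ∀ p : ℕ → ℝ, DetDigits b L η t k p →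
    ∀ c j : ℤ, j ≠ 0 → |j| ≤ (k : ℤ) ^ U → ∀ l : ℕ, 1 ≤ l → l ≤ k ^ U → ∀ Y : ℝ, 1 ≤ Y →
    ∀ (S : Set ℤ) (K : ℤ → Type) [∀ n, Field (K n)] [∀ n, NumberField (K n)],
    (∀ n ∈ S, |n| ≤ (b : ℤ) ^ (V * k) ∧ Module.finrank ℚ (K n) = 2 ∧ |(discr (K n) : ℝ)| ≤ Y ∧
      ∃ α : K n, IntermediateField.adjoin ℚ {α} = ⊤ ∧ α ^ 2 = ((j * n : ℤ) : K n)) →
    ∑ v ∈ range (b ^ k), p v * (if c + κ * v ∈ S then (tors (K (c + κ * v)) l : ℝ) ^ r else 0) ≤
      ((k : ℝ) ^ B * (√Y * max (Y ^ (-(1 / (2 * (l : ℝ))))) ((b : ℝ) ^ (-(δ * k))))) ^ r := by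
  obtain ⟨γ, hγ0, hγ1, hdec⟩ := dc_decays b L hb η hη
  obtain ⟨W, hW, H⟩ := Pool.Agent.N794.CG.quad_gen b hb L γ hγ0 hγ1 r hr
  have hWr : (0 : ℝ) < W := by exact_mod_cast hW
  refine ⟨1 / W, by positivity, fun κ hκ t U V => ?_⟩
  obtain ⟨B, k₀, J⟩ := H ((b ^ (L + 1)).factorial) κ (Nat.factorial_pos _) hκ U V
  refine ⟨t + B, k₀ + 1, fun k hk p hp c j hj0 hj l hl1 hlT Y hY S K _ _ hS => ?_⟩
  obtain ⟨μ, hμ, hpμ⟩ := fam_dc hp
  have hk1 : (1 : ℝ) ≤ k := by exact_mod_cast (by omega : 1 ≤ k)
  have h1 := J k (by omega) j hj0 hj l hl1 hlT Y hY S K hS 1 ℕ (range (b ^ k)) μ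
    (fun v => c + κ * (v : ℕ)) le_rfl (fun i _ => DC_nonneg hμ i) (DC_sum hμ).le
    (Pool.Agent.N794.CG.dom_of_decays (hdec k μ hμ κ c))
  rw [one_mul] at h1
  have h0 : ∑ v ∈ range (b ^ k), p v * (if c + κ * v ∈ S then (tors (K (c + κ * v)) l : ℝ) ^ r else 0) ≤
      (k : ℝ) ^ t * ∑ v ∈ range (b ^ k), μ v * (if c + κ * v ∈ S then (tors (K (c + κ * v)) l : ℝ) ^ r else 0) := by
    rw [mul_sum]
    apply sum_le_sum
    intro v _
    rw [← mul_assoc]
    apply mul_le_mul_of_nonneg_right (hpμ v).2
    split_ifs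
    · positivity
    · exact le_rfl
  refine h0.trans ((mul_le_mul_of_nonneg_left h1 (by positivity)).trans ?_)
  have e1 : (b : ℝ) ^ (-((k : ℝ) / W)) = (b : ℝ) ^ (-(1 / (W : ℝ) * k)) := by
    congr 1
    ring
  rw [e1]
  have hM : 0 ≤ √Y * max (Y ^ (-(1 / (2 * (l : ℝ))))) ((b : ℝ) ^ (-(1 / (W : ℝ) * k))) := by positivity
  have h2 : (k : ℝ) ^ t ≤ ((k : ℝ) ^ t) ^ r := le_self_pow₀ (one_le_pow₀ hk1) (by omega)
  calc (k : ℝ) ^ t * ((k : ℝ) ^ B * (√Y * max (Y ^ (-(1 / (2 * (l : ℝ))))) ((b : ℝ) ^ (-(1 / (W : ℝ) * k))))) ^ r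
      ≤ ((k : ℝ) ^ t) ^ r * ((k : ℝ) ^ B * (√Y * max (Y ^ (-(1 / (2 * (l : ℝ))))) ((b : ℝ) ^ (-(1 / (W : ℝ) * k))))) ^ r :=
        mul_le_mul_of_nonneg_right h2 (by positivity)
    _ = _ := by
        rw [← mul_pow, ← mul_assoc, ← pow_add]

end Pool.Agent.Results.MP_16912e_nt.DeterminantalFamilies
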