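import Pool.Agent.Run7.h582.FM.Es1
import Pool.Agent.N794.CG.Quad

/-!
# The torsion of the class groups of ALL the quadratic fields `ℚ(√(j q))`, `q` near `lam n * x + c n`, for almost every `x`
with respect to every measure with polynomial Fourier decay

Let `N n ≥ exp (n ^ η)` and let `lam n`, `c n` be real numbers with `N n / log ^ T (N n) ≤ lam n ≤ B N n` and
`|c n| ≤ B N n`. The theorem is about ALL the integers `q` at a distance of at most `log ^ V (N n)` from `lam n * x + c n`, for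
all large `n`, for almost every `x` with respect to EVERY finite Borel measure `μ` with bounded support whose Fourier transform
is `O (|ξ| ^ (-δ))` for some `δ > 0` (such measures can live on sets of an arbitrarily small positive Hausdorff dimension).

From Mathlib: `𝓞 K`, `ClassGroup`, `NumberField.discr`: the ring of integers, the class group and the discriminant.

Method: a measure with polynomial Fourier decay is replaced by finite families of real numbers with the same exponential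
sums (`Pool.Agent.Run7.h582.FM`); the characteristic functions of the integer parts of the members decay at all frequencies
with many binary digits far from those of an integer (with the theorem on integer parts of helper193, `Pool.Agent.N193.PS`);
from there the passage to sums over primes of functions of residues is from the starting files (`Pool.Agent.R459.Eq`, and
helper794's form of it, `Pool.Agent.N794.CG`), and then the lemma of Borel and Cantelli is used.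
The argument of Ellenberg and Venkatesh is used in the form of helper794 (`Pool.Agent.N794.CG`).
-/

set_option autoImplicit false
set_option maxHeartbeats 4000000

namespace Pool.Agent.Results.MP_16912e_nt.FourierDecayFields

open Finset Filter NumberField MeasureTheory

/-- `N n ≥ exp (n ^ η)`, `|c n| ≤ B N n` and `N n / log ^ T (N n) ≤ lam n ≤ B N n` for large `n`. -/
def Scales (η : ℝ) (B T : ℕ) (N : ℕ → ℕ) (lam c : ℕ → ℝ) : Prop :=
  ∀ᶠ n : ℕ in atTop, Real.exp ((n : ℝ) ^ η) ≤ N n ∧ |c n| ≤ B * N n ∧ lam n ≤ B * N n ∧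
    (N n : ℝ) ≤ lam n * Real.log (N n) ^ T

/-- `μ` is a finite Borel measure with bounded support and its Fourier transform `ξ ↦ ∫ exp (i ξ t) dμ (t)` is
`O (|ξ| ^ (-δ))` for some `δ > 0`. -/
def FourierDecay (μ : Measure ℝ) : Prop :=
  IsFiniteMeasure μ ∧ (∃ R : ℝ, μ (Set.Icc (-R) R)ᶜ = 0) ∧ ∃ C δ : ℝ, 0 < δ ∧ ∀ ξ : ℝ, ξ ≠ 0 →
    ‖∫ t : ℝ, Complex.exp (((ξ * t : ℝ) : ℂ) * Complex.I) ∂μ‖ ≤ C * |ξ| ^ (-δ)

/-- The distance of the integer `q` from the real number `y` is at most `log ^ V N`. -/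
def Near (V N : ℕ) (y : ℝ) (q : ℤ) : Prop := |(q : ℝ) - y| ≤ Real.log N ^ V

/-- `|Cl(K)[l]|`: the number of the ideal classes of `K` killed by `l`. -/
noncomputable def tors (K : Type) [Field K] [NumberField K] (l : ℕ) : ℕ := Nat.card {x : ClassGroup (𝓞 K) // x ^ l = 1}

/-- `K` is a quadratic field, generated by a square root of the integer `n`. -/
def Gen (K : Type) [Field K] [NumberField K] (n : ℤ) : Prop :=
  Module.finrank ℚ K = 2 ∧ ∃ α : K, IntermediateField.adjoin ℚ {α} = ⊤ ∧ α ^ 2 = (n : K)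

/-- a number field -/
structure NF where
  /-- the field -/
  K : Type
  /-- its structure -/
  [fld : Field K]
  /-- it is a number field -/
  [nf : NumberField K]

attribute [instance] NF.fld NF.nf

/-- the negation of the bound -/
def Bad (V L W : ℕ) (x : ℝ) (j : ℤ) (l i : ℕ) (v : ℤ) : Prop :=
  |(v : ℝ)| ≤ x ^ 2 ∧ j ≠ 0 ∧ |(j : ℝ)| ≤ Real.log x ^ V ∧ 1 ≤ l ∧ (l : ℝ) ≤ Real.log x ^ V ∧
    ∃ F : NF, Gen F.K (j * v) ∧ (2 : ℝ) ^ i ≤ |(discr F.K : ℝ)| ∧ |(discr F.K : ℝ)| ≤ 2 ^ (i + 1) ∧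
      Real.log x ^ L * (√|(discr F.K : ℝ)| * max (|(discr F.K : ℝ)| ^ (-(1 / (2 * (l : ℝ))))) (x ^ (-(1 / (W : ℝ))))) <
        tors F.K l

open Classical in
lemma count (A : ℕ) : ∃ W : ℕ, 1 ≤ W ∧ ∀ V U : ℕ, ∃ L : ℕ, ∀ T : ℕ, ∀ᶠ x : ℝ in atTop, ∀ k : ℕ, x ≤ 2 ^ k * Real.log x ^ T →
    (2 : ℝ) ^ k ≤ x * Real.log x → ∀ (j : ℤ) (l i : ℕ) (τ : Type) (S : Finset τ) (w : τ → ℤ), S.Nonempty →
    Pool.Agent.Run7.h582.FM.CD A k τ S w →
    ((S.filter fun a => Bad V L W x j l i (w a)).card : ℝ) ≤ S.card / Real.log x ^ U := by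
  obtain ⟨W, hW, H⟩ := Pool.Agent.N794.CG.quad_gen 2 le_rfl A (1 / 2) (by norm_num) (by norm_num) 1 le_rfl
  refine ⟨2 * W, by omega, fun V U => ?_⟩
  obtain ⟨B, k₀, J⟩ := H 1 1 le_rfl one_ne_zero (2 * V) 4
  refine ⟨2 * B + 1 + U, fun T => ?_⟩
  filter_upwards [eventually_ge_atTop (16 : ℝ), Pool.Agent.Run7.h582.FM.log_le_rpow_ev (2 * T) (1 / 2) (by norm_num),
    (tendsto_rpow_atTop (show (0 : ℝ) < 1 / 2 by norm_num)).eventually_ge_atTop ((2 : ℝ) ^ (k₀ + 2)),
    Real.tendsto_log_atTop.eventually_ge_atTop 4] with x hx16 hlT hxk hlog4 k hk1 hk2 j l i τ S w hS0 hcd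
  have hx0 : 0 < x := by linarith
  have hx1 : 1 ≤ x := by linarith
  have hlog0 : 0 < Real.log x := by linarith
  have hWr : (0 : ℝ) < W := by exact_mod_cast hW
  have hcard : (0 : ℝ) < S.card := by exact_mod_cast hS0.card_pos
  have hlT2 : Real.log x ^ T ≤ x ^ (1 / 4 : ℝ) := by
    have h1 : (Real.log x ^ T) ^ 2 ≤ (x ^ (1 / 4 : ℝ)) ^ 2 := by
      rw [← pow_mul, mul_comm T 2, ← Real.rpow_natCast (x ^ (1 / 4 : ℝ)) 2, ← Real.rpow_mul hx0.le]
      norm_num
      exact hlT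
    exact le_of_pow_le_pow_left₀ (by norm_num) (by positivity) h1
  have h2k : x ^ (1 / 2 : ℝ) ≤ 2 ^ k := by
    have h1 : x ≤ 2 ^ k * x ^ (1 / 4 : ℝ) := hk1.trans (mul_le_mul_of_nonneg_left hlT2 (by positivity))
    have h2 : x ^ (3 / 4 : ℝ) * x ^ (1 / 4 : ℝ) = x := by
      rw [← Real.rpow_add hx0]
      norm_num
    have h3 : x ^ (3 / 4 : ℝ) * x ^ (1 / 4 : ℝ) ≤ 2 ^ k * x ^ (1 / 4 : ℝ) := by rw [h2]; exact h1
    have h4 : x ^ (3 / 4 : ℝ) ≤ 2 ^ k := le_of_mul_le_mul_right h3 (by positivity)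
    exact (Real.rpow_le_rpow_of_exponent_le hx1 (by norm_num)).trans h4
  have hkk : k₀ + 2 ≤ k := by
    have h1 : (2 : ℝ) ^ (k₀ + 2) ≤ 2 ^ k := hxk.trans h2k
    exact (pow_le_pow_iff_right₀ (by norm_num)).1 h1
  have hk2r : (2 : ℝ) ≤ k := by exact_mod_cast (by omega : 2 ≤ k)
  have hlk : Real.log x ≤ 2 * k := by
    have h1 : Real.log (x ^ (1 / 2 : ℝ)) ≤ Real.log (2 ^ k) := Real.log_le_log (by positivity) h2k
    rw [Real.log_rpow hx0, Real.log_pow] at h1
    have := Real.log_two_lt_d9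
    nlinarith
  have hkl : (k : ℝ) ≤ Real.log x ^ 2 := by
    have h1 : (2 : ℝ) ^ k ≤ x ^ 2 := by
      refine hk2.trans ?_
      rw [pow_two]
      apply mul_le_mul_of_nonneg_left _ hx0.le
      exact (Real.log_le_sub_one_of_pos hx0).trans (by linarith)
    have h2 : Real.log (2 ^ k) ≤ Real.log (x ^ 2) := Real.log_le_log (by positivity) h1
    rw [Real.log_pow, Real.log_pow] at h2
    have := Real.log_two_gt_d9
    push_cast at h2
    nlinarith
  have hlkk : Real.log x ^ V ≤ (k : ℝ) ^ (2 * V) := by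
    rw [pow_mul]
    apply pow_le_pow_left₀ hlog0.le
    nlinarith
  by_cases htriv : j ≠ 0 ∧ |(j : ℝ)| ≤ Real.log x ^ V ∧ 1 ≤ l ∧ (l : ℝ) ≤ Real.log x ^ V
  swap
  · have : (S.filter fun a => Bad V (2 * B + 1 + U) (2 * W) x j l i (w a)) = ∅ := by
      apply filter_false_of_mem
      rintro a _ ⟨_, h1, h2, h3, h4, _⟩
      exact htriv ⟨h1, h2, h3, h4⟩
    rw [this, card_empty, Nat.cast_zero]
    positivity
  obtain ⟨hj0, hjV, hl1, hlV⟩ := htriv
  have hl0 : (0 : ℝ) < l := by exact_mod_cast hl1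
  set bad : ℤ → Prop := fun v => Bad V (2 * B + 1 + U) (2 * W) x j l i v with hbad
  obtain ⟨F, hF⟩ : ∃ F : ℤ → NF, ∀ v, bad v → Gen (F v).K (j * v) ∧ (2 : ℝ) ^ i ≤ |(discr (F v).K : ℝ)| ∧
      |(discr (F v).K : ℝ)| ≤ 2 ^ (i + 1) ∧
      Real.log x ^ (2 * B + 1 + U) * (√|(discr (F v).K : ℝ)| * max (|(discr (F v).K : ℝ)| ^ (-(1 / (2 * (l : ℝ)))))
        (x ^ (-(1 / ((2 * W : ℕ) : ℝ))))) < tors (F v).K l := by
    have : ∀ v, ∃ F : NF, bad v → Gen F.K (j * v) ∧ (2 : ℝ) ^ i ≤ |(discr F.K : ℝ)| ∧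
      |(discr F.K : ℝ)| ≤ 2 ^ (i + 1) ∧
      Real.log x ^ (2 * B + 1 + U) * (√|(discr F.K : ℝ)| * max (|(discr F.K : ℝ)| ^ (-(1 / (2 * (l : ℝ)))))
        (x ^ (-(1 / ((2 * W : ℕ) : ℝ))))) < tors F.K l := by
      intro v
      by_cases h : bad v
      · obtain ⟨_, _, _, _, _, F, h1⟩ := h
        exact ⟨F, fun _ => h1⟩
      · exact ⟨⟨ℚ⟩, fun h' => absurd h' h⟩
    choose F hF using this
    exact ⟨F, hF⟩
  have hY1 : (1 : ℝ) ≤ 2 ^ (i + 1) := one_le_pow₀ (by norm_num)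
  have h1 := J k (by omega) j hj0 (by
    have : (|j| : ℝ) ≤ (k : ℝ) ^ (2 * V) := hjV.trans hlkk
    exact_mod_cast this) l hl1 (by
    have : (l : ℝ) ≤ (k : ℝ) ^ (2 * V) := hlV.trans hlkk
    exact_mod_cast this) (2 ^ (i + 1)) hY1 {v | bad v} (fun v => (F v).K) (by
    intro v hv
    obtain ⟨⟨h2, h3⟩, h4, h5, _⟩ := hF v hv
    refine ⟨?_, h2, h5, ?_⟩
    · have h6 : |(v : ℝ)| ≤ x ^ 2 := hv.1
      have h7 : x ^ 2 ≤ ((2 : ℝ) ^ (4 * k)) := by
        have h8 : x ≤ (2 ^ k) ^ 2 := by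
          have h9 : (x ^ (1 / 2 : ℝ)) ^ 2 = x := by
            rw [← Real.rpow_natCast, ← Real.rpow_mul hx0.le]
            norm_num
          rw [← h9]
          exact pow_le_pow_left₀ (by positivity) h2k 2
        calc x ^ 2 ≤ ((2 ^ k) ^ 2) ^ 2 := pow_le_pow_left₀ hx0.le h8 2
          _ = 2 ^ (4 * k) := by rw [← pow_mul, ← pow_mul]; congr 1; ring
      have h10 : |(v : ℝ)| ≤ (2 : ℝ) ^ (4 * k) := h6.trans h7
      exact_mod_cast h10
    · obtain ⟨α, h6, h7⟩ := h3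
      exact ⟨α, h6, h7⟩) 1 τ S (fun _ => 1 / (S.card : ℝ)) w le_rfl (fun _ _ => by positivity) (by
    rw [sum_const, nsmul_eq_mul]
    rw [mul_one_div, div_self hcard.ne']) (Pool.Agent.N794.CG.dom_of_decays hcd)
  rw [one_mul, pow_one] at h1
  set M : ℝ := max (((2 : ℝ) ^ (i + 1)) ^ (-(1 / (2 * (l : ℝ))))) (((2 : ℕ) : ℝ) ^ (-((k : ℝ) / W))) with hM
  have hM0 : 0 < M := lt_of_lt_of_le (by positivity) (le_max_left _ _)
  have hs0 : 0 < √((2 : ℝ) ^ (i + 1)) := Real.sqrt_pos.2 (by positivity)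
  have hlow : ∀ a ∈ S.filter (fun a => bad (w a)), 1 / (S.card : ℝ) * (Real.log x ^ (2 * B + U) * (√((2 : ℝ) ^ (i + 1)) * M)) ≤
      1 / (S.card : ℝ) * (if w a ∈ {v | bad v} then (Nat.card {y : ClassGroup (𝓞 (F (w a)).K) // y ^ l = 1} : ℝ) ^ 1 else 0) := by
    intro a ha
    have hb : bad (w a) := (mem_filter.1 ha).2
    obtain ⟨_, h4, h5, h6⟩ := hF (w a) hb
    rw [if_pos (show w a ∈ {v | bad v} from hb), pow_one]
    apply mul_le_mul_of_nonneg_left _ (by positivity)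
    refine le_trans ?_ h6.le
    have hD0 : 0 < |(discr (F (w a)).K : ℝ)| := lt_of_lt_of_le (by positivity) h4
    have h7 : √((2 : ℝ) ^ (i + 1)) ≤ Real.log x * √|(discr (F (w a)).K : ℝ)| := by
      have h8 : (2 : ℝ) ^ (i + 1) ≤ 4 * |(discr (F (w a)).K : ℝ)| := by
        rw [pow_succ]
        linarith
      calc √((2 : ℝ) ^ (i + 1)) ≤ √(4 * |(discr (F (w a)).K : ℝ)|) := Real.sqrt_le_sqrt h8
        _ = 2 * √|(discr (F (w a)).K : ℝ)| := by
            rw [Real.sqrt_mul (by norm_num), show (4 : ℝ) = 2 ^ 2 by norm_num, Real.sqrt_sq (by norm_num)]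
        _ ≤ _ := mul_le_mul_of_nonneg_right (by linarith) (Real.sqrt_nonneg _)
    have h9 : M ≤ max (|(discr (F (w a)).K : ℝ)| ^ (-(1 / (2 * (l : ℝ))))) (x ^ (-(1 / ((2 * W : ℕ) : ℝ)))) := by
      apply max_le_max
      · apply Real.rpow_le_rpow_of_nonpos hD0 h5
        rw [neg_nonpos]
        positivity
      · have h10 : x ^ (1 / ((2 * W : ℕ) : ℝ)) ≤ ((2 : ℕ) : ℝ) ^ ((k : ℝ) / W) := by
          have h11 : x ^ (1 / ((2 * W : ℕ) : ℝ)) = (x ^ (1 / 2 : ℝ)) ^ (1 / (W : ℝ)) := by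
            rw [← Real.rpow_mul hx0.le]
            congr 1
            push_cast
            field_simp
          have h12 : ((2 : ℕ) : ℝ) ^ ((k : ℝ) / W) = ((2 : ℝ) ^ k) ^ (1 / (W : ℝ)) := by
            rw [← Real.rpow_natCast 2 k, ← Real.rpow_mul (by norm_num)]
            push_cast
            congr 1
            field_simp
          rw [h11, h12]
          exact Real.rpow_le_rpow (by positivity) h2k (by positivity)
        rw [Real.rpow_neg (by norm_num), Real.rpow_neg hx0.le]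
        exact inv_anti₀ (by positivity) h10
    calc Real.log x ^ (2 * B + U) * (√((2 : ℝ) ^ (i + 1)) * M) ≤ Real.log x ^ (2 * B + U) *
          ((Real.log x * √|(discr (F (w a)).K : ℝ)|) *
            max (|(discr (F (w a)).K : ℝ)| ^ (-(1 / (2 * (l : ℝ))))) (x ^ (-(1 / ((2 * W : ℕ) : ℝ))))) := by
            apply mul_le_mul_of_nonneg_left _ (by positivity)
            exact mul_le_mul h7 h9 hM0.le (by positivity)
      _ = _ := by ring
  have hsum : ((S.filter fun a => bad (w a)).card : ℝ) * (1 / (S.card : ℝ) * (Real.log x ^ (2 * B + U) * (√((2 : ℝ) ^ (i + 1)) * M))) ≤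
      (k : ℝ) ^ B * (√((2 : ℝ) ^ (i + 1)) * M) := by
    calc ((S.filter fun a => bad (w a)).card : ℝ) * (1 / (S.card : ℝ) * (Real.log x ^ (2 * B + U) * (√((2 : ℝ) ^ (i + 1)) * M))) =
        ∑ a ∈ S.filter (fun a => bad (w a)), 1 / (S.card : ℝ) * (Real.log x ^ (2 * B + U) * (√((2 : ℝ) ^ (i + 1)) * M)) := by
          rw [sum_const, nsmul_eq_mul]
      _ ≤ _ := sum_le_sum hlow
      _ ≤ _ := sum_le_sum_of_subset_of_nonneg (filter_subset _ _) (fun a _ _ => by
          apply mul_nonneg (by positivity)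
          split_ifs
          · positivity
          · exact le_rfl)
      _ ≤ _ := h1
  have hpos : 0 < √((2 : ℝ) ^ (i + 1)) * M := by positivity
  have h2 : ((S.filter fun a => bad (w a)).card : ℝ) / S.card * Real.log x ^ (2 * B + U) ≤ (k : ℝ) ^ B := by
    apply le_of_mul_le_mul_right _ hpos
    calc ((S.filter fun a => bad (w a)).card : ℝ) / S.card * Real.log x ^ (2 * B + U) * (√((2 : ℝ) ^ (i + 1)) * M) =
        ((S.filter fun a => bad (w a)).card : ℝ) * (1 / (S.card : ℝ) * (Real.log x ^ (2 * B + U) * (√((2 : ℝ) ^ (i + 1)) * M))) := by ring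
      _ ≤ _ := hsum
  have h3 : (k : ℝ) ^ B ≤ Real.log x ^ (2 * B) := by
    rw [pow_mul]
    exact pow_le_pow_left₀ (by positivity) hkl B
  have h4 : ((S.filter fun a => bad (w a)).card : ℝ) / S.card * Real.log x ^ U ≤ 1 := by
    have h5 : 0 < Real.log x ^ (2 * B) := by positivity
    apply le_of_mul_le_mul_right _ h5
    rw [one_mul]
    calc ((S.filter fun a => bad (w a)).card : ℝ) / S.card * Real.log x ^ U * Real.log x ^ (2 * B) =
        ((S.filter fun a => bad (w a)).card : ℝ) / S.card * Real.log x ^ (2 * B + U) := by rw [pow_add]; ring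
      _ ≤ _ := h2
      _ ≤ _ := h3
  rw [le_div_iff₀ (by positivity)]
  rw [div_mul_eq_mul_div, div_le_iff₀ hcard, one_mul] at h4
  exact h4

/-- the labels: the factors `j`, the exponents `l` and the dyadic ranges of the discriminant -/
noncomputable def labels (V N : ℕ) : Finset (ℤ × ℕ × ℕ) :=
  Icc (-(⌊Real.log N ^ V⌋₊ : ℤ)) ⌊Real.log N ^ V⌋₊ ×ˢ (range (⌊Real.log N ^ V⌋₊ + 1) ×ˢ range (⌊Real.log N ^ 2⌋₊ + 1))

lemma labels_card (V N : ℕ) (h : 5 ≤ Real.log N) : ((labels V N).card : ℝ) ≤ Real.log N ^ (2 * V + 4) := by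
  have h0 : 0 < Real.log N := by linarith
  have hV : 1 ≤ Real.log N ^ V := one_le_pow₀ (by linarith)
  have h2 : 1 ≤ Real.log N ^ 2 := one_le_pow₀ (by linarith)
  have e1 : ((⌊Real.log N ^ V⌋₊ : ℕ) : ℝ) ≤ Real.log N ^ V := Nat.floor_le (by positivity)
  have e2 : ((⌊Real.log N ^ 2⌋₊ : ℕ) : ℝ) ≤ Real.log N ^ 2 := Nat.floor_le (by positivity)
  unfold labels
  rw [card_product, card_product, card_range, card_range, Int.card_Icc]
  have e3 : ((((⌊Real.log N ^ V⌋₊ : ℤ) + 1 - -(⌊Real.log N ^ V⌋₊ : ℤ)).toNat : ℕ) : ℝ) ≤ 3 * Real.log N ^ V := by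
    have : ((⌊Real.log N ^ V⌋₊ : ℤ) + 1 - -(⌊Real.log N ^ V⌋₊ : ℤ)).toNat = 2 * ⌊Real.log N ^ V⌋₊ + 1 := by omega
    rw [this]
    push_cast
    linarith
  push_cast
  calc (((((⌊Real.log N ^ V⌋₊ : ℤ) + 1 - -(⌊Real.log N ^ V⌋₊ : ℤ)).toNat : ℕ) : ℝ)) *
        (((⌊Real.log N ^ V⌋₊ : ℝ) + 1) * ((⌊Real.log N ^ 2⌋₊ : ℝ) + 1)) ≤
      (3 * Real.log N ^ V) * ((2 * Real.log N ^ V) * (2 * Real.log N ^ 2)) := by
        apply mul_le_mul e3 _ (by positivity) (by positivity)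
        apply mul_le_mul _ _ (by positivity) (by positivity)
        · linarith
        · linarith
    _ = 12 * (Real.log N ^ V * Real.log N ^ V * Real.log N ^ 2) := by ring
    _ ≤ Real.log N ^ 2 * (Real.log N ^ V * Real.log N ^ V * Real.log N ^ 2) := by
        apply mul_le_mul_of_nonneg_right _ (by positivity)
        nlinarith
    _ = _ := by rw [show 2 * V + 4 = V + V + 2 + 2 by ring, pow_add, pow_add, pow_add]; ring

/-- Let `μ` be a measure with `FourierDecay`. There is `W` such that for all `η > 0` and `V` there is `L` such that for all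
sequences with `Scales η B T N lam c` and `μ`-almost every `x`, for all large `n`:

for ALL the integers `q` at a distance of at most `log ^ V (N n)` from `lam n * x + c n`, ALL the integers `j ≠ 0` with
`|j| ≤ log ^ V (N n)`, ALL the `l` with `1 ≤ l ≤ log ^ V (N n)` and every quadratic field `K = ℚ(√(j q))`, real or imaginary,
whose discriminant `D` is at most `N n ^ V` in absolute value,
`|Cl(K)[l]| ≤ log ^ L (N n) |D| ^ (1 / 2) max (|D| ^ (-1 / (2 l)), (N n) ^ (-1 / W))`. -/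
theorem result (μ : Measure ℝ) (hμ : FourierDecay μ) :
    ∃ W : ℕ, 1 ≤ W ∧ ∀ η : ℝ, 0 < η → ∀ V : ℕ, ∃ L : ℕ,
      ∀ (B T : ℕ) (N : ℕ → ℕ) (lam c : ℕ → ℝ), Scales η B T N lam c →
      ∀ᵐ x ∂μ, ∀ᶠ n : ℕ in atTop, ∀ q : ℤ, Near V (N n) (lam n * x + c n) q →
        ∀ (j : ℤ) (l : ℕ), j ≠ 0 → |(j : ℝ)| ≤ Real.log (N n) ^ V → 1 ≤ l → (l : ℝ) ≤ Real.log (N n) ^ V →
        ∀ (K : Type) [Field K] [NumberField K], Gen K (j * q) → |(discr K : ℝ)| ≤ (N n : ℝ) ^ V →
        (tors K l : ℝ) ≤ Real.log (N n) ^ L *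
          (√|(discr K : ℝ)| * max (|(discr K : ℝ)| ^ (-(1 / (2 * (l : ℝ))))) ((N n : ℝ) ^ (-(1 / (W : ℝ))))) := by
  classical
  obtain ⟨A, _, H⟩ := Pool.Agent.Run7.h582.FM.ae_scale1 Pool.Agent.Run7.h582.FM.CD Pool.Agent.Run7.h582.FM.hasCls_cd μ hμ
  obtain ⟨W, hW, K⟩ := count A
  refine ⟨W, hW, fun η hη V => ?_⟩
  obtain ⟨U, hU⟩ := H η hη V (2 * V + 4)
  obtain ⟨L, hL⟩ := K V U
  refine ⟨L, fun B T N lam c hS => ?_⟩
  have hNr : Tendsto (fun n : ℕ => (N n : ℝ)) atTop atTop := by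
    have h1 : Tendsto (fun n : ℕ => Real.exp ((n : ℝ) ^ η)) atTop atTop :=
      Real.tendsto_exp_atTop.comp ((tendsto_rpow_atTop hη).comp tendsto_natCast_atTop_atTop)
    exact tendsto_atTop_mono' _ (hS.mono fun n hn => hn.1) h1
  have hlogr : Tendsto (fun n : ℕ => Real.log (N n)) atTop atTop := Real.tendsto_log_atTop.comp hNr
  have key := hU B T N lam c hS (fun n => (labels V (N n)).card) (fun n a v =>
      ¬ Bad V L W (N n) ((labels V (N n)).equivFin.symm a : ℤ × ℕ × ℕ).1 ((labels V (N n)).equivFin.symm a : ℤ × ℕ × ℕ).2.1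
        ((labels V (N n)).equivFin.symm a : ℤ × ℕ × ℕ).2.2 v) (by
    filter_upwards [hlogr.eventually_ge_atTop 5] with n hn
    exact labels_card V (N n) hn) (by
    filter_upwards [hNr.eventually (hL T)] with n hn k hk1 hk2 a τ S w hS0 hcd
    refine le_trans (le_of_eq ?_) (hn k hk1 hk2 ((labels V (N n)).equivFin.symm a : ℤ × ℕ × ℕ).1
      ((labels V (N n)).equivFin.symm a : ℤ × ℕ × ℕ).2.1 ((labels V (N n)).equivFin.symm a : ℤ × ℕ × ℕ).2.2 τ S w hS0 hcd)
    simp only [not_not])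
  filter_upwards [key] with x hx
  filter_upwards [hx, hS, hlogr.eventually_ge_atTop (5 + 2 * V), hNr.eventually_ge_atTop (B * |x| + B + 1),
    hNr.eventually (Pool.Agent.Run7.h582.FM.log_le_rpow_ev V 1 one_pos), hNr.eventually_ge_atTop 16]
    with n hn hsc hl5 hNB hlV hN16 q hq j l hj0 hj hl1 hl K _ _ hK hD
  by_contra hcon
  push Not at hcon
  obtain ⟨_, hc, hlam, hNl⟩ := hsc
  have hx0 : (0 : ℝ) < N n := by linarith
  have hVr : (0 : ℝ) ≤ V := Nat.cast_nonneg _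
  have hlog0 : 0 < Real.log (N n) := by linarith
  have hlam0 : 0 ≤ lam n := by
    by_contra hneg
    push Not at hneg
    have : lam n * Real.log (N n) ^ T ≤ 0 := mul_nonpos_of_nonpos_of_nonneg hneg.le (by positivity)
    linarith
  have hD1 : 1 ≤ (discr K).natAbs := Nat.one_le_iff_ne_zero.2 (Int.natAbs_ne_zero.2 (discr_ne_zero K))
  have hDa : |(discr K : ℝ)| = ((discr K).natAbs : ℝ) := by
    rw [Nat.cast_natAbs]
    push_cast
    rfl
  obtain ⟨i, hi⟩ : ∃ i, i = Nat.log 2 (discr K).natAbs := ⟨_, rfl⟩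
  have hi1 : (2 : ℝ) ^ i ≤ |(discr K : ℝ)| := by
    rw [hDa, hi]
    exact_mod_cast Nat.pow_log_le_self 2 (by omega)
  have hi2 : |(discr K : ℝ)| ≤ 2 ^ (i + 1) := by
    rw [hDa, hi]
    exact_mod_cast (Nat.lt_pow_succ_log_self (by norm_num) _).le
  have hi3 : i ≤ ⌊Real.log (N n) ^ 2⌋₊ := by
    apply Nat.le_floor
    have h1 : (2 : ℝ) ^ i ≤ (N n : ℝ) ^ V := hi1.trans hD
    have h2 : Real.log (2 ^ i) ≤ Real.log ((N n : ℝ) ^ V) := Real.log_le_log (by positivity) h1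
    rw [Real.log_pow, Real.log_pow] at h2
    have := Real.log_two_gt_d9
    have hi0 : (0 : ℝ) ≤ i := Nat.cast_nonneg _
    nlinarith
  have hj3 : j ∈ Icc (-(⌊Real.log (N n) ^ V⌋₊ : ℤ)) ⌊Real.log (N n) ^ V⌋₊ := by
    have h1 : j.natAbs ≤ ⌊Real.log (N n) ^ V⌋₊ := by
      apply Nat.le_floor
      rw [Nat.cast_natAbs]
      push_cast
      exact hj
    rw [mem_Icc]
    omega
  have hl3 : l ≤ ⌊Real.log (N n) ^ V⌋₊ := Nat.le_floor hl
  have hmem : (j, l, i) ∈ labels V (N n) := by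
    unfold labels
    rw [mem_product, mem_product, mem_range, mem_range]
    exact ⟨hj3, Nat.lt_succ_of_le hl3, Nat.lt_succ_of_le hi3⟩
  have h7 := hn q hq ((labels V (N n)).equivFin ⟨(j, l, i), hmem⟩)
  rw [Equiv.symm_apply_apply] at h7
  apply h7
  refine ⟨?_, hj0, hj, hl1, hl, ⟨K⟩, hK, hi1, hi2, hcon⟩
  have h8 : |(q : ℝ)| ≤ |(q : ℝ) - (lam n * x + c n)| + |lam n * x + c n| := by
    have := abs_add_le ((q : ℝ) - (lam n * x + c n)) (lam n * x + c n)
    rwa [sub_add_cancel] at this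
  have h9 : |lam n * x + c n| ≤ B * N n * |x| + B * N n := by
    refine (abs_add_le _ _).trans (add_le_add ?_ hc)
    rw [abs_mul, abs_of_nonneg hlam0]
    exact mul_le_mul_of_nonneg_right hlam (abs_nonneg _)
  unfold Near at hq
  rw [Real.rpow_one] at hlV
  nlinarith

end Pool.Agent.Results.MP_16912e_nt.FourierDecayFields
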