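import Pool.Agent.Run7.h672.CC.H
import Pool.Agent.N794.CG.Quad

/-!
# The mean size of the torsion of the class groups of quadratic fields over random integers whose digits are written by independent random words

The definitions `len`, `Words`, `cat`, `noRest`, `cutWord`, `WordLaw` are in `Pool.Agent.Run7.h672.CC.Defs`. From Mathlib: `𝓞 K`,
`ClassGroup`, `NumberField.discr`: the ring of integers, the class group and the discriminant.

Method: a strong renewal theorem for the places at which a word ends; between two such places, at a positive proportion of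
the places, two words which do not commute can be exchanged (`w w'` and `w' w` have the same length, the same probability,
and different digits), whatever the language is; hence the characteristic function is exponentially small in the number of the
places at which the frequency is not close to a rational number with a small denominator (`Pool.Agent.Run7.h672.CC`). This gives
the decay from which the starting library derives the bound for the torsion (`Pool.Agent.N794.CG`, `Pool.Agent.R459.Tor`).
-/

set_option autoImplicit false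

namespace Pool.Agent.Results.MP_16912e_nt.WordFamilies

open Finset NumberField Filter
open Pool.Agent.Run7.h672.CC

/-- `|Cl(K)[l]|`: the number of the ideal classes of `K` killed by `l`. -/
noncomputable def tors (K : Type) [Field K] [NumberField K] (l : ℕ) : ℕ := Nat.card {x : ClassGroup (𝓞 K) // x ^ l = 1}

open Classical in
/-- Let `q` be the law of a random word in base `b` (`Words b q`: lengths with an exponential moment and without a common
divisor, and two words which do not commute) and `r ≥ 1`. There is `δ > 0` such that for `κ ≠ 0` and `U`, `V` there are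
`B`, `k₀` such that the following holds for all `k ≥ k₀`, for the law `p` of the integer whose `k` digits are written by
independent random words with the law `q` (conditioned on the total length, or cut after `k` digits: `WordLaw b q k p`), all
`c`, all integers `j ≠ 0` with `|j| ≤ k ^ U`, all `l` with `1 ≤ l ≤ k ^ U`, and all `Y ≥ 1`.

Let `K_n = ℚ(√(j n))` be quadratic fields, real or imaginary, with discriminant of absolute value at most `Y`, for the
integers `n` in a set `S` of integers of absolute value at most `b ^ (V k)`. If `v` is random with the law `p` then the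
expectation of the power `|Cl(K_n)[l]| ^ r`, `n = c + κ v` (with `0` if `n` is not in `S`) is at most
`(k ^ B Y ^ (1 / 2) max (Y ^ (-1 / (2 l)), b ^ (- δ k))) ^ r`. For `r = 1` and a prime `l` this is the average of the
question, with the exponent `1 / 2 - 1 / (2 l)`, over the family. -/
theorem result (b : ℕ) (q : ℕ → ℕ → ℝ) (hq : Words b q) (r : ℕ) (hr : 1 ≤ r) :
    ∃ δ : ℝ, 0 < δ ∧ ∀ κ : ℤ, κ ≠ 0 → ∀ U V : ℕ, ∃ B k₀ : ℕ, ∀ k : ℕ, k₀ ≤ k → ∀ p : ℕ → ℝ, WordLaw b q k p →
    ∀ c j : ℤ, j ≠ 0 → |j| ≤ (k : ℤ) ^ U → ∀ l : ℕ, 1 ≤ l → l ≤ k ^ U → ∀ Y : ℝ, 1 ≤ Y →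
    ∀ (S : Set ℤ) (K : ℤ → Type) [∀ n, Field (K n)] [∀ n, NumberField (K n)],
    (∀ n ∈ S, |n| ≤ (b : ℤ) ^ (V * k) ∧ Module.finrank ℚ (K n) = 2 ∧ |(discr (K n) : ℝ)| ≤ Y ∧
      ∃ α : K n, IntermediateField.adjoin ℚ {α} = ⊤ ∧ α ^ 2 = ((j * n : ℤ) : K n)) →
    ∑ v ∈ range (b ^ k), p v * (if c + κ * v ∈ S then (tors (K (c + κ * v)) l : ℝ) ^ r else 0) ≤
      ((k : ℝ) ^ B * (√Y * max (Y ^ (-(1 / (2 * (l : ℝ))))) ((b : ℝ) ^ (-(δ * k))))) ^ r := by
  have hb := hq.two
  obtain ⟨F, A, γ, hF, hγ0, hγ1, hdec⟩ := word_decays hq
  obtain ⟨W, hW, H⟩ := Pool.Agent.N794.CG.quad_gen b hb A γ hγ0 hγ1 r hr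
  have hWr : (0 : ℝ) < W := by exact_mod_cast hW
  refine ⟨1 / W, by positivity, fun κ hκ U V => ?_⟩
  obtain ⟨B, k₀, J⟩ := H F κ hF hκ U V
  refine ⟨B, k₀, fun k hk p hp c j hj0 hj l hl1 hlT Y hY S K _ _ hS => ?_⟩
  have h1 := J k hk j hj0 hj l hl1 hlT Y hY S K hS 1 ℕ (range (b ^ k)) p
    (fun v => c + κ * (v : ℕ)) le_rfl (fun i _ => law_nonneg hq hp i) (law_sum hp).le
    (Pool.Agent.N794.CG.dom_of_decays (hdec k p hp κ c))
  refine h1.trans (le_of_eq ?_)
  have e1 : (b : ℝ) ^ (-((k : ℝ) / W)) = (b : ℝ) ^ (-(1 / (W : ℝ) * k)) := by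
    congr 1
    ring
  rw [e1, one_mul]

end Pool.Agent.Results.MP_16912e_nt.WordFamilies
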